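import Pool.Agent.VTP.StmtsW

set_option autoImplicit false

/-!
# VTP, row WDG: the coefficients are of finite type
-/

namespace Pool.Agent.VTP.H64

open Finset Pool.Agent.ZOL Pool.Agent.VTP

/-- The letter map of `flip`. -/
def fl (B : Finset ℕ) (l : Letter) : Letter := if l.1 ∈ B then (l.1, l.2.1, !l.2.2) else l

theorem fl_fst (B : Finset ℕ) (l : Letter) : (fl B l).1 = l.1 := by
  unfold fl
  split_ifs <;> rfl

theorem fl_side (B : Finset ℕ) (l : Letter) : (fl B l).2.1 = l.2.1 := by
  unfold fl
  split_ifs <;> rfl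

theorem flip_eq (B : Finset ℕ) (w : Word) : flip B w = w.map (fl B) := rfl

theorem map_fst_flip (B : Finset ℕ) (w : Word) :
    (flip B w).map Prod.fst = w.map Prod.fst := by
  rw [flip_eq, List.map_map]
  refine List.map_congr_left (fun l _ => ?_)
  exact fl_fst B l

theorem il_flip (B : Finset ℕ) (w : Word) (c d : ℕ) : il (flip B w) c d ↔ il w c d := by
  unfold il
  rw [sub_flip, map_fst_flip]

theorem fstL_flip (B : Finset ℕ) (w : Word) {d : ℕ} (hd : d ∈ labels w) :
    fstL (flip B w) d = fl B (fstL w d) := by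
  have hfun : ((fun l : Letter => decide (l.1 = d)) ∘ fl B) = fun l : Letter => decide (l.1 = d) := by
    funext l
    simp only [Function.comp_apply, fl_fst]
  obtain ⟨l, hl, hld⟩ := mem_labels.mp hd
  have hs : (w.find? (fun l => decide (l.1 = d))).isSome := by
    rw [List.find?_isSome]
    exact ⟨l, hl, by simp [hld]⟩
  obtain ⟨x, hx⟩ := Option.isSome_iff_exists.mp hs
  unfold fstL
  rw [flip_eq, List.find?_map, hfun, hx]
  rfl

theorem wdg (pcg : PcgStmt) (pdg : PdgStmt) (qex : QexStmt) (wba : WbaStmt) : WdgStmt := by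
  intro w hw k
  have hwb := wba.2.2 w hw
  have key : ∀ B : Finset ℕ, PW (flip B w) =
      PP qq (labels w) (sg w) (fun d => if d ∈ B then - sn w d else sn w d) (il w) := by
    intro B
    unfold PW
    rw [labels_flip]
    refine (pcg (labels w) _ _ _ _ _ _ ?_ ?_ ?_).1 _ qq
    · intro d hd
      unfold sg
      rw [fstL_flip B w hd, fl_fst, fl_side]
    · intro d hd
      have h1 : (fstL w d).1 = d := (hwb d hd).1
      unfold sn
      rw [fstL_flip B w hd]
      unfold fl
      rw [h1]
      by_cases hB : d ∈ B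
      · rw [if_pos hB, if_pos hB]
        unfold sgn
        rcases h : (fstL w d) with ⟨a, b, c⟩
        cases b <;> cases c <;> simp
      · rw [if_neg hB, if_neg hB]
    · intro c _ d _
      exact il_flip B w c d
  have h := pdg qq qex.1 qex.2.2 (labels w) (sg w) (sn w) (il w) k
  intro A hA
  have h' := h A hA
  refine Eq.trans (Finset.sum_congr rfl (fun B _ => ?_)) h'
  simp only [key B]

end Pool.Agent.VTP.H64
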